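import Pool.Agent.P.MP_5af56b_co.Tor.Main
import Pool.Agent.P.MP_5af56b_co.Tor.Min

namespace Pool.Agent.P.MP_5af56b_co.Old.Torus

open Pool.Agent.P.MP_5af56b_co Pool.Agent.P.MP_5af56b_co.Tor

theorem result : ∀ G : MG, Toroidal G →
    (MinNonRed G ↔ ∃ H : MG, (PetersenFamily H ∨ H = k55m) ∧ Iso G H) :=
  fun G hG => ⟨qRes.2 G hG, fun ⟨_, hH, h⟩ =>
    pMin pA1 (pA2 pA1) (pFin pA1) (pFam pA1 (pA2 pA1)) hH h⟩

end Pool.Agent.P.MP_5af56b_co.Old.Torus
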